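import Pool.Agent.helper30.DP.Mix

/-!
# OSSS inequality for block explorations (project dp)
-/

namespace DP

open MeasureTheory

section Bosss

variable {Λ : Finset V} {next : Finset V → (V → Bool) → Finset V}

theorem Bosss_run_sub (hr : Rule Λ next) (b : V → Bool) (n : ℕ) : run next b n ⊆ Λ := by
  induction n with
  | zero => simp [run]
  | succ n ih =>
    simp only [run]
    exact Finset.union_subset ih ((hr _ b).1.trans Finset.sdiff_subset)

/-- The exploration depends on the revealed coins only. -/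
theorem Bosss_run_congr (hr : Rule Λ next) (b b' : V → Bool) (n : ℕ)
    (h : ∀ v ∈ run next b n, b v = b' v) : run next b' n = run next b n ∧
      next (run next b n) b' = next (run next b n) b := by
  induction n with
  | zero =>
    refine ⟨rfl, ?_⟩
    exact ((hr _ b).2 b' h).symm
  | succ n ih =>
    have h1 := ih fun v hv => h v (by simp only [run]; exact Finset.mem_union_left _ hv)
    have h2 : run next b' (n + 1) = run next b (n + 1) := by
      simp only [run]
      rw [h1.1, h1.2]
    exact ⟨h2, ((hr _ b).2 b' h).symm⟩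

theorem Bosss_run_mono (b : V → Bool) {n m : ℕ} (h : n ≤ m) : run next b n ⊆ run next b m := by
  induction m, h using Nat.le_induction with
  | base => exact subset_rfl
  | succ m _ ih => exact ih.trans (by simp only [run]; exact Finset.subset_union_left)

theorem Bosss_mix_mix {X X' : Finset V} (h : X ⊆ X') (b b' b'' : V → Bool) :
    Mx_mix X' (Mx_mix X b b') b'' = Mx_mix X b (Mx_mix X' b' b'') := by
  funext v
  simp only [Mx_mix]
  by_cases h1 : v ∈ X
  · simp [h1, h h1]
  · simp [h1]

end Bosss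

/-- The left side of the induction statement. -/
noncomputable def Bosss_L (f g : (V → Bool) → ℝ) (X : Finset V) (b : V → Bool) : ℝ :=
  (∫ p, f (Mx_mix X b p.1) * g (Mx_mix X p.2 p.1) ∂(P1.prod P1)) -
    (∫ ω, f (Mx_mix X b ω) ∂P1) * ∫ ω, g ω ∂P1

theorem Bosss_comp {α β : Type*} [MeasurableSpace α] [MeasurableSpace β] {μ : Measure α}
    {ν : Measure β} {f : α → β} (hf : MeasurePreserving f μ ν) {g : β → ℝ} (hg : Measurable g) :
    ∫ x, g (f x) ∂μ = ∫ y, g y ∂ν := by
  rw [← hf.map_eq, integral_map hf.measurable.aemeasurable hg.aestronglyMeasurable]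

theorem Bosss_m1 (X : Finset V) (b : V → Bool) : Measurable fun ω : V → Bool => Mx_mix X b ω :=
  (Mx_measurable_mix X).comp (measurable_const.prodMk measurable_id)

theorem Bosss_mm {α : Type*} [MeasurableSpace α] (X : Finset V) (u v : α → V → Bool)
    (hu : Measurable u) (hv : Measurable v) : Measurable fun x => Mx_mix X (u x) (v x) :=
  (Mx_measurable_mix X).comp (hu.prodMk hv)

/-- Averaging over the coins of `X'`. -/
theorem Bosss_avg (h : (V → Bool) → ℝ) (hm : Measurable h) (C : ℝ) (hb : ∀ b, |h b| ≤ C)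
    (X X' : Finset V) (hX : X ⊆ X') (b : V → Bool) :
    ∫ ω', (∫ ω, h (Mx_mix X' (Mx_mix X b ω') ω) ∂P1) ∂P1 = ∫ ω, h (Mx_mix X b ω) ∂P1 := by
  have h1 : Measurable fun ω => h (Mx_mix X b ω) := hm.comp (Bosss_m1 X b)
  rw [← Bosss_comp (Mx_mp_mix X') h1]
  have h2 : Measurable fun p : (V → Bool) × (V → Bool) => h (Mx_mix X b (Mx_mix X' p.1 p.2)) :=
    h1.comp (Mx_measurable_mix X')
  rw [integral_prod _ (Mx_int _ _ C h2 fun x => hb _)]
  simp only [Bosss_mix_mix hX]

/-- One step of the exploration. -/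
theorem Bosss_step (f g : (V → Bool) → ℝ) (hfm : Measurable f) (hgm : Measurable g)
    (hf : ∀ b, 0 ≤ f b ∧ f b ≤ 1) (hg : ∀ b, 0 ≤ g b ∧ g b ≤ 1) (X X' B : Finset V)
    (hX : X' = X ∪ B) (hd : Disjoint X B) (b : V → Bool) :
    Integrable (fun ω' => Bosss_L f g X' (Mx_mix X b ω')) P1 ∧ Bosss_L f g X b ≤ (∫ ω', Bosss_L f g X' (Mx_mix X b ω') ∂P1) +
      ∫ w, |g (fun v => (w v).1) - g (fun v => (w v).2)| ∂(PP fun v => if v ∈ B then 1 else 0) := by
  have hXX : X ⊆ X' := hX ▸ Finset.subset_union_left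
  have hfa : ∀ b, |f b| ≤ 1 := fun b => abs_le.2 ⟨by linarith [(hf b).1], (hf b).2⟩
  have hga : ∀ b, |g b| ≤ 1 := fun b => abs_le.2 ⟨by linarith [(hg b).1], (hg b).2⟩
  have hfg : ∀ b b', |f b * g b'| ≤ 1 := fun b b' => by
    rw [abs_mul]
    exact mul_le_one₀ (hfa b) (abs_nonneg _) (hga b')
  -- the function of the second state
  have hH : Measurable fun q : (V → Bool) × ((V → Bool) × (V → Bool)) =>
      f (Mx_mix X' (Mx_mix X b q.1) q.2.1) * g (Mx_mix X' q.2.2 q.2.1) :=
    (hfm.comp (Bosss_mm _ _ _ (Bosss_mm _ _ _ measurable_const measurable_fst)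
      (by fun_prop))).mul (hgm.comp (Bosss_mm _ _ _ (by fun_prop) (by fun_prop)))
  have hHi : Integrable (fun q : (V → Bool) × ((V → Bool) × (V → Bool)) =>
      f (Mx_mix X' (Mx_mix X b q.1) q.2.1) * g (Mx_mix X' q.2.2 q.2.1)) (P1.prod (P1.prod P1)) :=
    Mx_int _ _ 1 hH fun q => hfg _ _
  have hK : Measurable fun q : (V → Bool) × (V → Bool) => f (Mx_mix X' (Mx_mix X b q.1) q.2) :=
    hfm.comp (Bosss_mm _ _ _ (Bosss_mm _ _ _ measurable_const measurable_fst) measurable_snd)
  have hKi : Integrable (fun q : (V → Bool) × (V → Bool) => f (Mx_mix X' (Mx_mix X b q.1) q.2))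
      (P1.prod P1) := Mx_int _ _ 1 hK fun q => hfa _
  have e1 : ∫ ω', Bosss_L f g X' (Mx_mix X b ω') ∂P1 =
      (∫ q, f (Mx_mix X' (Mx_mix X b q.1) q.2.1) * g (Mx_mix X' q.2.2 q.2.1)
        ∂(P1.prod (P1.prod P1))) - (∫ ω, f (Mx_mix X b ω) ∂P1) * ∫ ω, g ω ∂P1 := by
    unfold Bosss_L
    rw [integral_sub hHi.integral_prod_left (hKi.integral_prod_left.mul_const _),
      integral_mul_const, Bosss_avg f hfm 1 hfa X X' hXX b, integral_prod _ hHi]
  have e0 : Integrable (fun ω' => Bosss_L f g X' (Mx_mix X b ω')) P1 := by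
    unfold Bosss_L
    exact hHi.integral_prod_left.sub (hKi.integral_prod_left.mul_const _)
  refine ⟨e0, ?_⟩
  -- change of variables in the first state
  have hP : MeasurePreserving (fun q : (V → Bool) × ((V → Bool) × (V → Bool)) =>
      (Mx_mix X' q.1 q.2.1, q.2.2)) (P1.prod (P1.prod P1)) (P1.prod P1) := by
    have h1 := (Mx_mp_mix X').prod (MeasurePreserving.id P1)
    exact h1.comp (measurePreserving_prodAssoc P1 P1 P1).symm
  have hQ : MeasurePreserving (fun q : (V → Bool) × ((V → Bool) × (V → Bool)) =>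
      (Mx_mix X' q.2.2 q.2.1, q.1)) (P1.prod (P1.prod P1)) (P1.prod P1) := by
    have h0 := (Mx_mp_mix X').comp (Measure.measurePreserving_swap (μ := P1) (ν := P1))
    have h1 := (MeasurePreserving.id P1).prod h0
    exact (Measure.measurePreserving_swap (μ := P1) (ν := P1)).comp h1
  have hG : Measurable fun p : (V → Bool) × (V → Bool) =>
      f (Mx_mix X b p.1) * g (Mx_mix X p.2 p.1) :=
    (hfm.comp (Bosss_mm _ _ _ measurable_const measurable_fst)).mul
      (hgm.comp (Bosss_mm _ _ _ measurable_snd measurable_fst))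
  have e2 := Bosss_comp hP hG
  have hG2 : Measurable fun q : (V → Bool) × ((V → Bool) × (V → Bool)) =>
      f (Mx_mix X b (Mx_mix X' q.1 q.2.1)) * g (Mx_mix X q.2.2 (Mx_mix X' q.1 q.2.1)) :=
    hG.comp hP.measurable
  have hG2i : Integrable (fun q : (V → Bool) × ((V → Bool) × (V → Bool)) =>
      f (Mx_mix X b (Mx_mix X' q.1 q.2.1)) * g (Mx_mix X q.2.2 (Mx_mix X' q.1 q.2.1)))
      (P1.prod (P1.prod P1)) := Mx_int _ _ 1 hG2 fun q => hfg _ _
  -- the error term
  have hD : Measurable fun w : V → Bool × Bool => |g (fun v => (w v).1) - g (fun v => (w v).2)| :=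
    ((hgm.comp (by fun_prop)).sub (hgm.comp (by fun_prop))).abs
  have e3 := Bosss_comp (Mx_mp_pair B) hD
  have e4 := Bosss_comp hQ (hD.comp (Mx_mp_pair B).measurable)
  rw [← e3]
  refine le_trans ?_ (add_le_add le_rfl e4.le)
  rw [e1]
  unfold Bosss_L
  rw [← e2]
  have hE : Integrable (fun q : (V → Bool) × ((V → Bool) × (V → Bool)) =>
      |g (fun v => (Mx_mix X' q.2.2 q.2.1) v) - g (Mx_mix B q.1 (Mx_mix X' q.2.2 q.2.1))|)
      (P1.prod (P1.prod P1)) := by
    refine Mx_int _ _ 2 ((hD.comp (Mx_mp_pair B).measurable).comp hQ.measurable) fun q => ?_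
    have h1 := hga (fun v => (Mx_mix X' q.2.2 q.2.1) v)
    have h2 := hga (Mx_mix B q.1 (Mx_mix X' q.2.2 q.2.1))
    rw [abs_abs]
    exact (abs_sub _ _).trans (by linarith)
  have e5 : (∫ q, f (Mx_mix X b (Mx_mix X' q.1 q.2.1)) * g (Mx_mix X q.2.2 (Mx_mix X' q.1 q.2.1))
      ∂(P1.prod (P1.prod P1))) ≤
      ∫ q, (f (Mx_mix X' (Mx_mix X b q.1) q.2.1) * g (Mx_mix X' q.2.2 q.2.1) +
        |g (fun v => (Mx_mix X' q.2.2 q.2.1) v) - g (Mx_mix B q.1 (Mx_mix X' q.2.2 q.2.1))|)
      ∂(P1.prod (P1.prod P1)) := by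
    refine integral_mono hG2i (hHi.add hE) fun q => ?_
    have h1 : Mx_mix X q.2.2 (Mx_mix X' q.1 q.2.1) = Mx_mix B q.1 (Mx_mix X' q.2.2 q.2.1) := by
      funext v
      simp only [Mx_mix, hX, Finset.mem_union]
      by_cases hv : v ∈ X
      · have := Finset.disjoint_left.1 hd hv
        simp [hv, this]
      · by_cases hv2 : v ∈ B <;> simp [hv, hv2]
    rw [h1, Bosss_mix_mix hXX]
    have h2 := neg_abs_le (g (fun v => (Mx_mix X' q.2.2 q.2.1) v) -
      g (Mx_mix B q.1 (Mx_mix X' q.2.2 q.2.1)))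
    have h3 := hf (Mx_mix X b (Mx_mix X' q.1 q.2.1))
    have h4 := abs_nonneg (g (fun v => (Mx_mix X' q.2.2 q.2.1) v) -
      g (Mx_mix B q.1 (Mx_mix X' q.2.2 q.2.1)))
    nlinarith [h2, h3.1, h3.2, h4]
  rw [integral_add hHi hE] at e5
  simp only [Function.comp_def] at e5 ⊢
  linarith

/-- Constant `f` on the configurations which agree with `b` on `X`. -/
theorem Bosss_leaf (f g : (V → Bool) → ℝ) (hgm : Measurable g) (X : Finset V) (b : V → Bool)
    (hc : ∀ ω, f (Mx_mix X b ω) = f b) : Bosss_L f g X b = 0 := by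
  unfold Bosss_L
  simp only [hc]
  rw [integral_const_mul, integral_const]
  have h := (Mx_mp_mix X).comp (Measure.measurePreserving_swap (μ := P1) (ν := P1))
  have e := Bosss_comp h hgm
  simp only [Function.comp_def, Prod.fst_swap, Prod.snd_swap] at e
  rw [e]
  simp

/-- The induction. -/
theorem Bosss_main {Λ : Finset V} {next : Finset V → (V → Bool) → Finset V} {N : ℕ}
    {B : Fin N → Finset V} (f g : (V → Bool) → ℝ) (I : Fin N → ℝ) (hr : Rule Λ next)
    (hB : ∀ i j, i ≠ j → Disjoint (B i) (B j)) (hne : ∀ i, (B i).Nonempty)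
    (hnext : ∀ X b, next X b = ∅ ∨ ∃ i, next X b = B i)
    (hfm : Measurable f) (hgm : Measurable g)
    (hf : ∀ b, 0 ≤ f b ∧ f b ≤ 1) (hg : ∀ b, 0 ≤ g b ∧ g b ≤ 1)
    (hdet : ∀ b b', (∀ v ∈ run next b Λ.card, b v = b' v) → f b = f b')
    (hI : ∀ i, ∫ w, |g (fun v => (w v).1) - g (fun v => (w v).2)|
      ∂(PP fun v => if v ∈ B i then 1 else 0) ≤ I i) :
    ∀ k n, n + k = Λ.card → ∀ b, Bosss_L f g (run next b n) b ≤
      ∑ i, ((∫ ω, {c | B i ⊆ run next c Λ.card}.indicator (1 : (V → Bool) → ℝ)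
          (Mx_mix (run next b n) b ω) ∂P1) -
        (if B i ⊆ run next b n then 1 else 0)) * I i := by
  have hset : ∀ i, Measurable ({c | B i ⊆ run next c Λ.card}.indicator (1 : (V → Bool) → ℝ)) := by
    intro i
    refine Mx_meas _ Λ fun b b' hb => ?_
    have h1 := (Bosss_run_congr hr b b' Λ.card
      fun v hv => hb v (Bosss_run_sub hr b _ hv)).1
    simp only [Set.indicator_apply, Set.mem_ofPred_eq, h1, Pi.one_apply]
  have hset1 : ∀ i b, |({c | B i ⊆ run next c Λ.card}.indicator (1 : (V → Bool) → ℝ)) b| ≤ 1 := by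
    intro i b
    simp only [Set.indicator_apply, Pi.one_apply]
    split_ifs <;> simp
  intro k
  induction k with
  | zero =>
    intro n hn b
    obtain rfl : n = Λ.card := by omega
    have h1 : ∀ ω, ∀ v ∈ run next b Λ.card, b v = Mx_mix (run next b Λ.card) b ω v := by
      intro ω v hv
      simp [Mx_mix, hv]
    rw [Bosss_leaf f g hgm _ b fun ω => (hdet b _ (h1 ω)).symm]
    refine le_of_eq (Finset.sum_eq_zero fun i _ => ?_).symm
    have h2 : ∀ ω, {c | B i ⊆ run next c Λ.card}.indicator (1 : (V → Bool) → ℝ)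
        (Mx_mix (run next b Λ.card) b ω) = if B i ⊆ run next b Λ.card then 1 else 0 := by
      intro ω
      simp only [Set.indicator_apply, Set.mem_ofPred_eq, (Bosss_run_congr hr b _ Λ.card (h1 ω)).1,
        Pi.one_apply]
    simp only [h2]
    simp
  | succ k ih' =>
    intro n hn b
    have ih := ih' (n + 1) (by omega)
    set X := run next b n with hXdef
    have hagree : ∀ ω, ∀ v ∈ run next b n, b v = Mx_mix X b ω v := by
      intro ω v hv
      have : v ∈ X := hv
      simp [Mx_mix, this]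
    have hrun : ∀ ω, run next (Mx_mix X b ω) (n + 1) = X ∪ next X b := by
      intro ω
      have h1 := Bosss_run_congr hr b _ n (hagree ω)
      simp only [run]
      rw [h1.1, h1.2]
    rcases hnext X b with h0 | ⟨i, hi⟩
    · have h1 : run next b (n + 1) = X := by
        simp only [run]
        rw [← hXdef, h0, Finset.union_empty]
      have h2 := ih b
      rw [h1] at h2
      exact h2
    · have hdis : Disjoint X (B i) := by
        rw [← hi]
        have := (hr X b).1
        exact Finset.disjoint_of_subset_right this Finset.disjoint_sdiff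
      obtain ⟨hLi, hstep⟩ := Bosss_step f g hfm hgm hf hg X (X ∪ B i) (B i) rfl hdis b
      have hih : ∀ ω', Bosss_L f g (X ∪ B i) (Mx_mix X b ω') ≤
          ∑ j, ((∫ ω, {c | B j ⊆ run next c Λ.card}.indicator (1 : (V → Bool) → ℝ)
          (Mx_mix (X ∪ B i) (Mx_mix X b ω') ω) ∂P1) -
        (if B j ⊆ X ∪ B i then 1 else 0)) * I j := by
        intro ω'
        have := ih (Mx_mix X b ω')
        rw [hrun, hi] at this
        exact this
      have hJ : ∀ j, Integrable (fun ω' => ∫ ω,
          {c | B j ⊆ run next c Λ.card}.indicator (1 : (V → Bool) → ℝ)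
          (Mx_mix (X ∪ B i) (Mx_mix X b ω') ω) ∂P1) P1 := by
        intro j
        have hK : Measurable fun q : (V → Bool) × (V → Bool) =>
            {c | B j ⊆ run next c Λ.card}.indicator (1 : (V → Bool) → ℝ)
              (Mx_mix (X ∪ B i) (Mx_mix X b q.1) q.2) :=
          (hset j).comp (Bosss_mm _ _ _ (Bosss_mm _ _ _ measurable_const measurable_fst)
            measurable_snd)
        exact (Mx_int (P1.prod P1) _ 1 hK fun q => hset1 j _).integral_prod_left
      have hJ2 : ∀ j, Integrable (fun ω' => ((∫ ω,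
          {c | B j ⊆ run next c Λ.card}.indicator (1 : (V → Bool) → ℝ)
          (Mx_mix (X ∪ B i) (Mx_mix X b ω') ω) ∂P1) -
        (if B j ⊆ X ∪ B i then 1 else 0)) * I j) P1 := fun j =>
        ((hJ j).sub (integrable_const _)).mul_const _
      have h1 := integral_mono hLi (integrable_finsetSum _ fun j _ => hJ2 j) hih
      rw [integral_finsetSum _ fun j _ => hJ2 j] at h1
      have h2 : ∀ j, ∫ ω', ((∫ ω,
          {c | B j ⊆ run next c Λ.card}.indicator (1 : (V → Bool) → ℝ)
          (Mx_mix (X ∪ B i) (Mx_mix X b ω') ω) ∂P1) -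
        (if B j ⊆ X ∪ B i then 1 else 0)) * I j ∂P1 =
          ((∫ ω, {c | B j ⊆ run next c Λ.card}.indicator (1 : (V → Bool) → ℝ)
            (Mx_mix X b ω) ∂P1) - (if B j ⊆ X then 1 else 0)) * I j - (if j = i then I j else 0) := by
        intro j
        rw [integral_mul_const, integral_sub (hJ j) (integrable_const _),
          Bosss_avg _ (hset j) 1 (hset1 j) X _ Finset.subset_union_left b, integral_const]
        have h3 : (if B j ⊆ X ∪ B i then (1 : ℝ) else 0) =
            (if B j ⊆ X then 1 else 0) + if j = i then 1 else 0 := by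
          by_cases hji : j = i
          · subst hji
            have h4 : ¬ B j ⊆ X := by
              intro h5
              obtain ⟨v, hv⟩ := hne j
              exact Finset.disjoint_left.1 hdis (h5 hv) hv
            simp [h4, Finset.subset_union_right]
          · have h4 : B j ⊆ X ∪ B i ↔ B j ⊆ X := by
              constructor
              · intro h5 v hv
                rcases Finset.mem_union.1 (h5 hv) with h6 | h6
                · exact h6
                · exact absurd h6 (Finset.disjoint_left.1 (hB j i hji) hv)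
              · exact fun h5 => h5.trans Finset.subset_union_left
            simp [h4, hji]
        rw [h3]
        have h5 : P1.real Set.univ = 1 := by simp
        rw [h5]
        split_ifs <;> simp <;> ring
      simp only [h2] at h1
      rw [Finset.sum_sub_distrib, Finset.sum_ite_eq' Finset.univ i I] at h1
      simp only [Finset.mem_univ, if_true] at h1
      have h3 := hI i
      linarith

theorem Bosss : Bosss_stmt := by
  classical
  intro Λ next N B F g I hr hB hBΛ hne hnext hF hg hg01 hdet hI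
  obtain ⟨Λ', hΛ', hdep⟩ := hF
  have hfm : Measurable (F.indicator (1 : (V → Bool) → ℝ)) :=
    measurable_one.indicator (Mx_meas_set F Λ' hdep)
  have hgm : Measurable g := Mx_meas g Λ hg
  have h := Bosss_main (F.indicator (1 : (V → Bool) → ℝ)) g I hr hB hne hnext hfm hgm
    (fun b => by simp only [Set.indicator_apply, Pi.one_apply]; split_ifs <;> simp) hg01
    (fun b b' hb => by simp only [Set.indicator_apply, hdet b b' hb, Pi.one_apply]) hI
    Λ.card 0 (by omega) (fun _ => false)
  have hm : ∀ b b' : V → Bool, Mx_mix (run next (fun _ => false) 0) b b' = b' := by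
    intro b b'
    funext v
    simp [Mx_mix, run]
  have hE : ∀ i, ¬ B i ⊆ run next (fun _ => false) 0 := by
    intro i hi
    obtain ⟨v, hv⟩ := hne i
    have := hi hv
    simp [run] at this
  simp only [Bosss_L, hm, hE, if_false, sub_zero] at h
  have e1 : ∫ p : (V → Bool) × (V → Bool), F.indicator (1 : (V → Bool) → ℝ) p.1 * g p.1
      ∂(P1.prod P1) = ∫ b, F.indicator (1 : (V → Bool) → ℝ) b * g b ∂P1 :=
    Bosss_comp measurePreserving_fst (hfm.mul hgm)
  have e2 : ∀ G : Set (V → Bool), MeasurableSet G →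
      ∫ b, G.indicator (1 : (V → Bool) → ℝ) b ∂P1 = Pr G := by
    intro G hG
    rw [integral_indicator_one hG]
    rfl
  rw [e1, e2 F (Mx_meas_set F Λ' hdep)] at h
  refine h.trans (le_of_eq (Finset.sum_congr rfl fun i _ => ?_))
  rw [e2 _ (Mx_meas_set _ Λ fun b b' hb => ?_)]
  have h1 := (Bosss_run_congr hr b b' Λ.card
      fun v hv => hb v (Bosss_run_sub hr b _ hv)).1
  simp only [Set.mem_ofPred_eq, h1]

end DP
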