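import Pool.Agent.helper30.DP.Bosss

/-!
# Tree inequality (project dp)
-/

namespace DP

open MeasureTheory

/-- Average over one coin. -/
theorem Btree_coin (h : (V → Bool) → ℝ) (hm : Measurable h) (C : ℝ) (hb : ∀ b, |h b| ≤ C) (v : V) :
    ∫ ω, h ω ∂P1 = ((∫ ω, h (Function.update ω v true) ∂P1) +
      ∫ ω, h (Function.update ω v false) ∂P1) / 2 := by
  rw [← Bosss_comp (Mx_mp_mix {v}) hm]
  have h2 : Measurable fun p : (V → Bool) × (V → Bool) => h (Mx_mix {v} p.1 p.2) :=
    hm.comp (Mx_measurable_mix _)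
  rw [integral_prod _ (Mx_int _ _ C h2 fun x => hb _)]
  have h3 : ∀ ω' ω : V → Bool, Mx_mix {v} ω' ω = Function.update ω v (ω' v) := by
    intro ω' ω
    funext w
    by_cases hw : w = v
    · subst hw
      simp [Mx_mix]
    · simp [Mx_mix, hw]
  simp only [h3]
  have h4 := Bosss_comp (measurePreserving_eval_infinitePi (fun _ : V => Mx_U) v)
    (g := fun x => ∫ ω, h (Function.update ω v x) ∂P1) (measurable_of_finite _)
  have h5 : ∫ x, (∫ ω, h (Function.update ω v x) ∂P1) ∂Mx_U =
      ((∫ ω, h (Function.update ω v true) ∂P1) + ∫ ω, h (Function.update ω v false) ∂P1) / 2 := by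
    rw [integral_fintype (Integrable.of_finite)]
    have e1 : Mx_U.real {true} = 1 / 2 := by
      rw [Measure.real, Mx_U_eq]
      simp
    have e2 : Mx_U.real {false} = 1 / 2 := by
      rw [Measure.real, Mx_U_eq]
      simp
    simp only [Fintype.sum_bool, e1, e2, smul_eq_mul]
    ring
  rw [← h5, ← h4]
  rfl

theorem Btree_upd (X : Finset V) (v : V) (hv : v ∉ X) (b ω : V → Bool) (x : Bool) :
    Mx_mix (X ∪ {v}) (Function.update b v x) ω = Function.update (Mx_mix X b ω) v x := by
  funext w
  by_cases hw : w = v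
  · subst hw
    simp [Mx_mix]
  · simp [Mx_mix, hw]

theorem Btree_upd2 (X : Finset V) (v : V) (hv : v ∉ X) (b ω : V → Bool) (x : Bool) :
    Mx_mix X b (Function.update ω v x) = Function.update (Mx_mix X b ω) v x := by
  funext w
  by_cases hw : w = v
  · subst hw
    simp [Mx_mix, hv]
  · simp [Mx_mix, hw]

theorem Btree_upd3 (X : Finset V) (v : V) (hv : v ∈ X) (b ω : V → Bool) (x : Bool) :
    Mx_mix X (Function.update b v x) ω = Function.update (Mx_mix X b ω) v x := by
  funext w
  by_cases hw : w = v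
  · subst hw
    simp [Mx_mix, hv]
  · simp [Mx_mix, hw]

theorem Btree_avg (h : (V → Bool) → ℝ) (hm : Measurable h) (C : ℝ) (hb : ∀ b, |h b| ≤ C)
    (X : Finset V) (v : V) (hv : v ∉ X) (b : V → Bool) :
    ∫ ω, h (Mx_mix X b ω) ∂P1 =
      ((∫ ω, h (Mx_mix (X ∪ {v}) (Function.update b v true) ω) ∂P1) +
        ∫ ω, h (Mx_mix (X ∪ {v}) (Function.update b v false) ω) ∂P1) / 2 := by
  rw [Btree_coin (fun ω => h (Mx_mix X b ω)) (hm.comp (Bosss_m1 X b)) C (fun _ => hb _) v]
  simp only [Btree_upd2 X v hv, Btree_upd X v hv]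

/-- Absolute value of the discrete derivative. -/
def Btree_D (g : (V → Bool) → ℝ) (v : V) (b : V → Bool) : ℝ :=
  |g (Function.update b v true) - g (Function.update b v false)|

theorem Btree_mupd (v : V) (x : Bool) : Measurable fun b : V → Bool => Function.update b v x := by
  refine measurable_pi_lambda _ fun w => ?_
  by_cases hw : w = v
  · subst hw
    simp
  · simp only [Function.update_of_ne hw]
    fun_prop

theorem Btree_Dm (g : (V → Bool) → ℝ) (hg : Measurable g) (v : V) : Measurable (Btree_D g v) := by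
  unfold Btree_D
  exact ((hg.comp (Btree_mupd v true)).sub (hg.comp (Btree_mupd v false))).abs

noncomputable def Btree_C (f g : (V → Bool) → ℝ) (X : Finset V) (b : V → Bool) : ℝ :=
  (∫ ω, f (Mx_mix X b ω) * g (Mx_mix X b ω) ∂P1) -
    (∫ ω, f (Mx_mix X b ω) ∂P1) * ∫ ω, g (Mx_mix X b ω) ∂P1

theorem Btree_diff (h : (V → Bool) → ℝ) (hm : Measurable h) (hb : ∀ b, |h b| ≤ 1)
    (X : Finset V) (v : V) (hv : v ∉ X) (b : V → Bool) :
    |(∫ ω, h (Mx_mix (X ∪ {v}) (Function.update b v true) ω) ∂P1) -
        ∫ ω, h (Mx_mix (X ∪ {v}) (Function.update b v false) ω) ∂P1| ≤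
      ∫ ω, Btree_D h v (Mx_mix X b ω) ∂P1 := by
  have hi : ∀ x : Bool, Integrable (fun ω => h (Mx_mix (X ∪ {v}) (Function.update b v x) ω)) P1 :=
    fun x => Mx_int _ _ 1 (hm.comp (Bosss_m1 _ _)) fun _ => hb _
  rw [← integral_sub (hi true) (hi false)]
  refine (abs_integral_le_integral_abs).trans (le_of_eq ?_)
  unfold Btree_D
  simp only [Btree_upd X v hv]

/-- The induction. -/
theorem Btree_main {Λ L₀ : Finset V} {next : Finset V → (V → Bool) → Finset V}
    (f g : (V → Bool) → ℝ) (κ : ℝ) (hr : Rule Λ next) (hκ : 0 ≤ κ)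
    (hcard : ∀ X b, (next X b).card ≤ 1)
    (hfm : Measurable f) (hgm : Measurable g) (hf : ∀ b, |f b| ≤ 1) (hg : ∀ b, |g b| ≤ 1)
    (hdet : ∀ b b', (∀ v ∈ run next b Λ.card, b v = b' v) → f b = f b')
    (hgL : ∀ v ∉ L₀, ∀ b, Btree_D g v b = 0)
    (hinf : ∀ b n, ∀ v ∈ next (run next b n) b, v ∈ L₀ →
      ∫ ω, Btree_D f v (Mx_mix (run next b n) b ω) ∂P1 ≤ κ) :
    ∀ k n, n + k = Λ.card → ∀ b, Btree_C f g (run next b n) b ≤
      κ / 4 * ∑ u ∈ L₀ \ run next b n, ∫ ω, Btree_D g u (Mx_mix (run next b n) b ω) ∂P1 := by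
  have hDg1 : ∀ v b, |Btree_D g v b| ≤ 2 := by
    intro v b
    unfold Btree_D
    rw [abs_abs]
    exact (abs_sub _ _).trans (by linarith [hg (Function.update b v true), hg (Function.update b v false)])
  have hD0 : ∀ (v : V) (h : (V → Bool) → ℝ) b, 0 ≤ Btree_D h v b := fun v h b => abs_nonneg _
  intro k
  induction k with
  | zero =>
    intro n hn b
    obtain rfl : n = Λ.card := by omega
    have h1 : ∀ ω, ∀ v ∈ run next b Λ.card, b v = Mx_mix (run next b Λ.card) b ω v := by
      intro ω v hv
      simp [Mx_mix, hv]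
    have h2 : ∀ ω, f (Mx_mix (run next b Λ.card) b ω) = f b := fun ω => (hdet b _ (h1 ω)).symm
    have h3 : Btree_C f g (run next b Λ.card) b = 0 := by
      unfold Btree_C
      simp only [h2]
      rw [integral_const_mul, integral_const]
      simp
    rw [h3]
    exact mul_nonneg (by positivity) (Finset.sum_nonneg fun u _ => integral_nonneg fun ω => hD0 _ _ _)
  | succ k ih' =>
    intro n hn b
    have ih := ih' (n + 1) (by omega)
    set X := run next b n with hXdef
    rcases Nat.le_one_iff_eq_zero_or_eq_one.1 (hcard X b) with h0 | h0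
    · have h1 : run next b (n + 1) = X := by
        simp only [run]
        rw [← hXdef, Finset.card_eq_zero.1 h0, Finset.union_empty]
      have h2 := ih b
      rw [h1] at h2
      exact h2
    · obtain ⟨v, hv⟩ := Finset.card_eq_one.1 h0
      have hvX : v ∉ X := by
        have h1 := (hr X b).1
        rw [hv] at h1
        exact (Finset.mem_sdiff.1 (h1 (Finset.mem_singleton_self v))).2
      have hrun : ∀ x, run next (Function.update b v x) (n + 1) = X ∪ {v} := by
        intro x
        have h1 := Bosss_run_congr hr b (Function.update b v x) n fun w hw => by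
          have : w ≠ v := by
            rintro rfl
            exact hvX hw
          simp [this]
        simp only [run]
        rw [h1.1, h1.2, ← hXdef, hv]
      have hih : ∀ x, Btree_C f g (X ∪ {v}) (Function.update b v x) ≤
          κ / 4 * ∑ u ∈ L₀ \ (X ∪ {v}),
            ∫ ω, Btree_D g u (Mx_mix (X ∪ {v}) (Function.update b v x) ω) ∂P1 := by
        intro x
        have := ih (Function.update b v x)
        rw [hrun] at this
        exact this
      have e1 := Btree_avg (fun c => f c * g c) (hfm.mul hgm) 1 (fun c => by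
        rw [abs_mul]; exact mul_le_one₀ (hf c) (abs_nonneg _) (hg c)) X v hvX b
      have e2 := Btree_avg f hfm 1 hf X v hvX b
      have e3 := Btree_avg g hgm 1 hg X v hvX b
      have d2 := Btree_diff f hfm hf X v hvX b
      have d3 := Btree_diff g hgm hg X v hvX b
      have e4 : ∀ u, ∫ ω, Btree_D g u (Mx_mix X b ω) ∂P1 = _ := fun u =>
        Btree_avg (Btree_D g u) (Btree_Dm g hgm u) 2 (hDg1 u) X v hvX b
      -- the sum
      have hsum : (κ / 4 * ∑ u ∈ L₀ \ (X ∪ {v}),
            ∫ ω, Btree_D g u (Mx_mix (X ∪ {v}) (Function.update b v true) ω) ∂P1 +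
          κ / 4 * ∑ u ∈ L₀ \ (X ∪ {v}),
            ∫ ω, Btree_D g u (Mx_mix (X ∪ {v}) (Function.update b v false) ω) ∂P1) / 2 =
          κ / 4 * ∑ u ∈ L₀ \ (X ∪ {v}), ∫ ω, Btree_D g u (Mx_mix X b ω) ∂P1 := by
        have : ∀ u, ∫ ω, Btree_D g u (Mx_mix X b ω) ∂P1 =
          ((∫ ω, Btree_D g u (Mx_mix (X ∪ {v}) (Function.update b v true) ω) ∂P1) +
            ∫ ω, Btree_D g u (Mx_mix (X ∪ {v}) (Function.update b v false) ω) ∂P1) / 2 :=
          fun u => e4 u
        simp only [this]
        rw [← Finset.sum_div, Finset.sum_add_distrib]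
        ring
      have key : (1 / 4 : ℝ) * (((∫ ω, f (Mx_mix (X ∪ {v}) (Function.update b v true) ω) ∂P1) -
          ∫ ω, f (Mx_mix (X ∪ {v}) (Function.update b v false) ω) ∂P1) *
          ((∫ ω, g (Mx_mix (X ∪ {v}) (Function.update b v true) ω) ∂P1) -
          ∫ ω, g (Mx_mix (X ∪ {v}) (Function.update b v false) ω) ∂P1)) +
          κ / 4 * ∑ u ∈ L₀ \ (X ∪ {v}), ∫ ω, Btree_D g u (Mx_mix X b ω) ∂P1 ≤
          κ / 4 * ∑ u ∈ L₀ \ X, ∫ ω, Btree_D g u (Mx_mix X b ω) ∂P1 := by
        by_cases hvL : v ∈ L₀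
        · have h1 : L₀ \ X = insert v (L₀ \ (X ∪ {v})) := by
            ext w
            by_cases hw : w = v
            · subst hw
              simp [hvL, hvX]
            · simp [hw]
          have h2 : v ∉ L₀ \ (X ∪ {v}) := by simp
          rw [h1, Finset.sum_insert h2, mul_add]
          have h3 := hinf b n v (by rw [← hXdef, hv]; simp) hvL
          have h4 := abs_mul ((∫ ω, f (Mx_mix (X ∪ {v}) (Function.update b v true) ω) ∂P1) -
            ∫ ω, f (Mx_mix (X ∪ {v}) (Function.update b v false) ω) ∂P1)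
            ((∫ ω, g (Mx_mix (X ∪ {v}) (Function.update b v true) ω) ∂P1) -
            ∫ ω, g (Mx_mix (X ∪ {v}) (Function.update b v false) ω) ∂P1)
          have h5 := mul_le_mul (d2.trans h3) d3 (abs_nonneg _) hκ
          have h6 := le_abs_self (((∫ ω, f (Mx_mix (X ∪ {v}) (Function.update b v true) ω) ∂P1) -
            ∫ ω, f (Mx_mix (X ∪ {v}) (Function.update b v false) ω) ∂P1) *
            ((∫ ω, g (Mx_mix (X ∪ {v}) (Function.update b v true) ω) ∂P1) -
            ∫ ω, g (Mx_mix (X ∪ {v}) (Function.update b v false) ω) ∂P1))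
          rw [h4] at h6
          have h7 := h6.trans h5
          linarith
        · have h1 : L₀ \ X = L₀ \ (X ∪ {v}) := by
            ext w
            by_cases hw : w = v
            · subst hw
              simp [hvL]
            · simp [hw]
          have h2 : ∀ ω, Btree_D g v (Mx_mix X b ω) = 0 := fun ω => hgL v hvL _
          simp only [h2, integral_zero] at d3
          have h3 := abs_nonpos_iff.1 d3
          rw [h3, h1]
          simp
      have hA := hih true
      have hB := hih false
      unfold Btree_C at hA hB ⊢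
      rw [e1, e2, e3]
      linarith [hsum, key, hA, hB]

theorem Btree_piv (F : Set (V → Bool)) (v : V) (b : V → Bool) :
    Btree_D (F.indicator (1 : (V → Bool) → ℝ)) v b =
      (Piv {v} F).indicator (1 : (V → Bool) → ℝ) b := by
  classical
  have key : b ∈ Piv {v} F ↔ ¬ (Function.update b v true ∈ F ↔ Function.update b v false ∈ F) := by
    have h0 : ∀ b' : V → Bool, (∀ w, w ∉ ({v} : Set V) → b' w = b w) →
        b' = Function.update b v (b' v) := by
      intro b' hb'
      funext w
      by_cases hw : w = v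
      · subst hw
        simp
      · simp only [Function.update_of_ne hw]
        exact hb' w (by simpa using hw)
    constructor
    · rintro ⟨b', b'', h1, h2, h3⟩ h4
      have e1 := h0 b' fun w hw => (h1 w hw).1
      have e2 := h0 b'' fun w hw => (h1 w hw).2
      rw [e1] at h2
      rw [e2] at h3
      cases h5 : b' v <;> cases h6 : b'' v <;> rw [h5] at h2 <;> rw [h6] at h3 <;> tauto
    · intro h
      have h1 : ∀ (x : Bool) (w : V), w ∉ ({v} : Set V) → Function.update b v x w = b w := by
        intro x w hw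
        have : w ≠ v := by simpa using hw
        simp [this]
      by_cases h2 : Function.update b v true ∈ F
      · exact ⟨_, _, fun w hw => ⟨h1 true w hw, h1 false w hw⟩, h2, by tauto⟩
      · exact ⟨_, _, fun w hw => ⟨h1 false w hw, h1 true w hw⟩, by tauto, h2⟩
  unfold Btree_D
  simp only [Set.indicator_apply, Pi.one_apply, key]
  by_cases h1 : Function.update b v true ∈ F <;> by_cases h2 : Function.update b v false ∈ F <;>
    simp [h1, h2]

theorem Btree : Btree_stmt := by
  classical
  intro Λ L₀ next F κ hr hL hκ hcard hF hdet hinf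
  obtain ⟨Λ', hΛ', hdep⟩ := hF
  have hFm : MeasurableSet F := Mx_meas_set F Λ' hdep
  set f : (V → Bool) → ℝ := F.indicator (1 : (V → Bool) → ℝ) with hfdef
  have hfm : Measurable f := measurable_one.indicator hFm
  have hf : ∀ b, |f b| ≤ 1 := by
    intro b
    simp only [hfdef, Set.indicator_apply, Pi.one_apply]
    split_ifs <;> simp
  set g : (V → Bool) → ℝ := fun b => ∫ b', f (Mx_mix L₀ b b') ∂P1 with hgdef
  have hgloc : ∀ b b' : V → Bool, (∀ v ∈ L₀, b v = b' v) → g b = g b' := by
    intro b b' hb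
    have : ∀ c, Mx_mix L₀ b c = Mx_mix L₀ b' c := by
      intro c
      funext w
      by_cases hw : w ∈ L₀
      · simp [Mx_mix, hw, hb w hw]
      · simp [Mx_mix, hw]
    simp only [hgdef, this]
  have hgm : Measurable g := Mx_meas g L₀ hgloc
  have hg : ∀ b, |g b| ≤ 1 := by
    intro b
    have h1 := norm_integral_le_of_norm_le_const (μ := P1) (f := fun b' => f (Mx_mix L₀ b b')) (C := 1)
      (Filter.Eventually.of_forall fun b' => by rw [Real.norm_eq_abs]; exact hf _)
    simpa [hgdef] using h1
  have hmixid : ∀ b b' : V → Bool, Mx_mix ∅ b b' = b' := by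
    intro b b'
    funext v
    simp [Mx_mix]
  have hPr : ∀ G : Set (V → Bool), MeasurableSet G →
      ∫ b, G.indicator (1 : (V → Bool) → ℝ) b ∂P1 = Pr G := by
    intro G hG
    rw [integral_indicator_one hG]
    rfl
  have hPivm : ∀ v, MeasurableSet (Piv {v} F) := by
    intro v
    have h1 : Measurable ((Piv {v} F).indicator (1 : (V → Bool) → ℝ)) := by
      have h2 := Btree_Dm f hfm v
      have h3 : Btree_D f v = (Piv {v} F).indicator (1 : (V → Bool) → ℝ) :=
        funext fun b => Btree_piv F v b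
      rwa [h3] at h2
    have h4 : Piv {v} F = (Piv {v} F).indicator (1 : (V → Bool) → ℝ) ⁻¹' {1} := by
      ext b
      simp only [Set.mem_preimage, Set.mem_singleton_iff, Set.indicator_apply, Pi.one_apply]
      split_ifs with h <;> simp [h]
    rw [h4]
    exact h1 (measurableSet_singleton _)
  have hmain := Btree_main (Λ := Λ) (L₀ := L₀) (next := next) f g κ hr hκ hcard hfm hgm hf hg
    (fun b b' hb => by
      simp only [hfdef, Set.indicator_apply, Pi.one_apply, hdet b b' hb])
    (fun v hv b => by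
      unfold Btree_D
      have : g (Function.update b v true) = g (Function.update b v false) := by
        refine hgloc _ _ fun w hw => ?_
        have : w ≠ v := by
          rintro rfl
          exact hv hw
        simp [this]
      rw [this]
      simp)
    (fun b n v hv hvL => by
      refine le_trans (le_of_eq ?_) (hinf b n v hv hvL)
      have h1 : ∀ ω, Btree_D f v (Mx_mix (run next b n) b ω) =
          {b' | (fun w => if w ∈ run next b n then b w else b' w) ∈ Piv {v} F}.indicator
            (1 : (V → Bool) → ℝ) ω := by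
        intro ω
        rw [hfdef, Btree_piv]
        rfl
      simp only [h1]
      exact hPr _ ((hPivm v).preimage (Bosss_m1 (run next b n) b)))
    Λ.card 0 (by omega) (fun _ => false)
  simp only [run, Btree_C, hmixid, Finset.sdiff_empty] at hmain
  -- the covariance is the variance of `g`
  have hmixfun : ∀ b b' : V → Bool, (fun w => if w ∈ L₀ then b w else b' w) = Mx_mix L₀ b b' :=
    fun _ _ => rfl
  have hgmix : ∀ b b' : V → Bool, g (Mx_mix L₀ b b') = g b := by
    intro b b'
    exact hgloc _ _ fun v hv => by simp [Mx_mix, hv]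
  have e1 : ∫ ω, f ω * g ω ∂P1 = ∫ b, g b ^ 2 ∂P1 := by
    have h1 : Measurable fun ω => f ω * g ω := hfm.mul hgm
    have h2 : Integrable (fun x : (V → Bool) × (V → Bool) => f (Mx_mix L₀ x.1 x.2) *
        g (Mx_mix L₀ x.1 x.2)) (P1.prod P1) :=
      Mx_int _ _ 1 (h1.comp (Mx_measurable_mix L₀)) fun x => by
        rw [abs_mul]
        exact mul_le_one₀ (hf _) (abs_nonneg _) (hg _)
    rw [← Bosss_comp (Mx_mp_mix L₀) h1, integral_prod _ h2]
    refine integral_congr_ae (Filter.Eventually.of_forall fun b => ?_)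
    simp only [hgmix]
    rw [integral_mul_const]
    simp only [hgdef]
    ring
  have e2 : ∫ ω, f ω ∂P1 = Pr F := hPr F hFm
  have e3 : ∫ ω, g ω ∂P1 = Pr F := by
    have h2 : Integrable (fun x : (V → Bool) × (V → Bool) => f (Mx_mix L₀ x.1 x.2)) (P1.prod P1) :=
      Mx_int _ _ 1 (hfm.comp (Mx_measurable_mix L₀)) fun x => hf _
    rw [← e2, ← Bosss_comp (Mx_mp_mix L₀) hfm, integral_prod _ h2]
  rw [e1, e2, e3] at hmain
  have e4 : ∀ v ∈ L₀, ∫ ω, Btree_D g v ω ∂P1 ≤ Pr (Piv {v} F) := by
    intro v hv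
    have h1 : Measurable (Btree_D f v) := Btree_Dm f hfm v
    have hb1 : ∀ c, |Btree_D f v c| ≤ 1 := by
      intro c
      rw [hfdef, Btree_piv]
      simp only [Set.indicator_apply, Pi.one_apply]
      split_ifs <;> simp
    have h2 : ∫ ω, Btree_D f v ω ∂P1 = Pr (Piv {v} F) := by
      rw [← hPr _ (hPivm v)]
      refine integral_congr_ae (Filter.Eventually.of_forall fun b => ?_)
      exact Btree_piv F v b
    have hint : Integrable (fun x : (V → Bool) × (V → Bool) => Btree_D f v (Mx_mix L₀ x.1 x.2))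
        (P1.prod P1) := Mx_int _ _ 1 (h1.comp (Mx_measurable_mix L₀)) fun x => hb1 _
    rw [← h2, ← Bosss_comp (Mx_mp_mix L₀) h1, integral_prod _ hint]
    refine integral_mono (Mx_int _ _ 2 (Btree_Dm g hgm v) fun b => ?_) hint.integral_prod_left
      fun b => ?_
    · unfold Btree_D
      rw [abs_abs]
      have h3 := hg (Function.update b v true)
      have h4 := hg (Function.update b v false)
      exact (abs_sub _ _).trans (by linarith)
    · have h3 : ∀ x : Bool, Integrable (fun ω => f (Mx_mix L₀ (Function.update b v x) ω)) P1 :=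
        fun x => Mx_int _ _ 1 (hfm.comp (Bosss_m1 _ _)) fun _ => hf _
      simp only [Btree_D, hgdef]
      rw [← integral_sub (h3 true) (h3 false)]
      refine (abs_integral_le_integral_abs).trans (le_of_eq ?_)
      simp only [Btree_upd3 L₀ v hv]
  have e5 : κ / 4 * ∑ u ∈ L₀, ∫ ω, Btree_D g u ω ∂P1 ≤ κ * ∑ v ∈ L₀, Pr (Piv {v} F) := by
    have h1 : ∑ u ∈ L₀, ∫ ω, Btree_D g u ω ∂P1 ≤ ∑ v ∈ L₀, Pr (Piv {v} F) := Finset.sum_le_sum e4
    have h2 : 0 ≤ ∑ v ∈ L₀, Pr (Piv {v} F) := Finset.sum_nonneg fun v _ => measureReal_nonneg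
    nlinarith
  have e6 : ∫ b, (∫ b', F.indicator (1 : (V → Bool) → ℝ)
      (fun w => if w ∈ L₀ then b w else b' w) ∂P1) ^ 2 ∂P1 = ∫ b, g b ^ 2 ∂P1 := rfl
  rw [e6]
  nlinarith [hmain, e5]

end DP
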