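import Pool.Agent.helper3.DP.SpecG1
import Pool.Agent.helper96.DP.Basic

/-!
# The exploration rule of part G (project dp)
-/

namespace DP

theorem G1R_mem (N : ℕ) (v : V) : v ∈ DqF N ↔ v ∈ Dq N := by
  simp only [DqF, Finset.mem_product, Finset.mem_Icc, Dq, rect]
  constructor
  · rintro ⟨⟨h1, h2⟩, h3, h4⟩
    exact ⟨h1, h2, h3, h4⟩
  · rintro ⟨h1, h2, h3, h4⟩
    exact ⟨⟨h1, h2⟩, h3, h4⟩

theorem G1R_cand_congr (N : ℕ) (X : Finset V) (b b' : V → Bool) (h : ∀ v ∈ X, b v = b' v) :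
    gcand N X b = gcand N X b' := by
  have h1 : ∀ v ∈ X, col b v = col b' v := fun v hv => col_congr (h v hv)
  have h2 : ∀ (k : Bool) (w : V), (∃ v ∈ X, col b v = k ∧ Adj v w) ↔
      ∃ v ∈ X, col b' v = k ∧ Adj v w := by
    intro k w
    constructor
    · rintro ⟨v, hv, h3, h4⟩
      exact ⟨v, hv, (h1 v hv) ▸ h3, h4⟩
    · rintro ⟨v, hv, h3, h4⟩
      exact ⟨v, hv, (h1 v hv).symm ▸ h3, h4⟩
  simp only [gcand, h2]

theorem G1R_stop_congr (N : ℕ) (X : Finset V) (b b' : V → Bool) (h : ∀ v ∈ X, b v = b' v) :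
    gstop N X b ↔ gstop N X b' := by
  have h1 : ∀ v ∈ X, col b v = col b' v := fun v hv => col_congr (h v hv)
  have h2 : ∀ (k : Bool) (p : V → Prop), (∃ v ∈ X, col b v = k ∧ p v) ↔
      ∃ v ∈ X, col b' v = k ∧ p v := by
    intro k p
    constructor
    · rintro ⟨v, hv, h3, h4⟩
      exact ⟨v, hv, (h1 v hv) ▸ h3, h4⟩
    · rintro ⟨v, hv, h3, h4⟩
      exact ⟨v, hv, (h1 v hv).symm ▸ h3, h4⟩
  unfold gstop
  rw [h2 true (fun v => v.1 = 4 * (N : ℤ)), h2 false (fun v => v.2 = 4 * (N : ℤ))]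

theorem G1R_next_mem (N : ℕ) (X : Finset V) (b : V → Bool) (v : V) (hv : v ∈ gnext N X b) :
    v ∈ gcand N X b := by
  unfold gnext at hv
  split_ifs at hv with h
  · rw [Finset.mem_singleton] at hv
    rw [hv]
    exact Classical.epsilon_spec (p := fun w => w ∈ gcand N X b) h.1
  · simp at hv

theorem G1R : G1R_stmt := by
  intro N
  refine ⟨fun X b => ⟨?_, ?_⟩, ?_, fun X b v => G1R_next_mem N X b v⟩
  · intro v hv
    have h := G1R_next_mem N X b v hv
    exact Finset.mem_sdiff.2 ⟨(G1R_mem N v).2 h.1, h.2.1⟩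
  · intro b' h
    have h1 := propext (G1R_stop_congr N X b b' h)
    unfold gnext
    rw [G1R_cand_congr N X b b' h, h1]
  · intro X b
    unfold gnext
    split_ifs <;> simp

theorem G1I : G1I_stmt := by
  intro N b n
  induction n with
  | zero =>
    refine ⟨by simp [run], ?_, ?_⟩ <;> simp [run]
  | succ n ih =>
    obtain ⟨h1, h2, h3⟩ := ih
    have hsub : (run (gnext N) b n : Set V) ⊆ (run (gnext N) b (n + 1) : Set V) := by
      intro v hv
      simp only [run]
      exact Finset.mem_coe.2 (Finset.mem_union_left _ (Finset.mem_coe.1 hv))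
    have hmem : ∀ v, v ∈ run (gnext N) b (n + 1) → v ∈ run (gnext N) b n ∨
        v ∈ gnext N (run (gnext N) b n) b := by
      intro v hv
      simp only [run] at hv
      exact Finset.mem_union.1 hv
    refine ⟨?_, ?_, ?_⟩
    · intro v hv
      rcases hmem v hv with h | h
      · exact h1 h
      · exact (G1R_mem N v).2 (G1R_next_mem N _ b v h).1
    · intro v hv hc
      rcases hmem v hv with h | h
      · obtain ⟨u, hu, hcon⟩ := h2 v h hc
        exact ⟨u, hu, hcon.mono hsub⟩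
      · obtain ⟨_, _, h4 | ⟨w, hw, hwc, hadj⟩, _⟩ := G1R_next_mem N _ b v h
        · exact ⟨v, h4, Con.refl ⟨hv, hc⟩⟩
        · obtain ⟨u, hu, hcon⟩ := h2 w hw hwc
          have h5 : Conn (col b) true (run (gnext N) b (n + 1) : Set V) w u := hcon.mono hsub
          exact ⟨u, hu, (Con.single (W := {w | w ∈ (run (gnext N) b (n + 1) : Set V) ∧
            col b w = true}) ⟨hv, hc⟩ hadj.symm h5.1).trans h5⟩
    · intro v hv hc
      rcases hmem v hv with h | h
      · obtain ⟨u, hu, hcon⟩ := h3 v h hc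
        exact ⟨u, hu, hcon.mono hsub⟩
      · obtain ⟨_, _, _, h4 | ⟨w, hw, hwc, hadj⟩⟩ := G1R_next_mem N _ b v h
        · exact ⟨v, h4, Con.refl ⟨hv, hc⟩⟩
        · obtain ⟨u, hu, hcon⟩ := h3 w hw hwc
          have h5 : Conn (col b) false (run (gnext N) b (n + 1) : Set V) w u := hcon.mono hsub
          exact ⟨u, hu, (Con.single (W := {w | w ∈ (run (gnext N) b (n + 1) : Set V) ∧
            col b w = false}) ⟨hv, hc⟩ hadj.symm h5.1).trans h5⟩

end DP
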