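import Pool.Agent.helper96.DP.SpecF
import Pool.Agent.helper96.DP.Basic

/-!
# Geometry of the blocks (project dp)
-/

namespace DP

theorem BLG_le (m a b x : ℤ) (hm : 1 ≤ m) (h1 : 2 * m * a - m ≤ x) (h2 : x ≤ 2 * m * b + m - 1) :
    a ≤ b := by
  by_contra h
  push Not at h
  have h3 : b + 1 ≤ a := h
  nlinarith

theorem BLG_mem (m : ℕ) (z v : ℤ × ℤ) : v ∈ blo m z ↔
    (2 * m * z.1 - m ≤ v.1 ∧ v.1 ≤ 2 * m * z.1 + m - 1) ∧
      2 * m * z.2 - m ≤ v.2 ∧ v.2 ≤ 2 * m * z.2 + m - 1 := by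
  simp only [blo, Finset.mem_product, Finset.mem_Icc]

theorem BLG_box (m : ℕ) (z v : ℤ × ℤ) (h : v ∈ blo m z) : sd (2 * m * z.1, 2 * m * z.2) v ≤ m := by
  rw [BLG_mem] at h
  rw [sd_le_iff]
  simp only
  omega

theorem BLG_zero (v : V) (n : ℕ) : sd 0 v ≤ n ↔ (-(n : ℤ) ≤ v.1 ∧ v.1 ≤ n) ∧ -(n : ℤ) ≤ v.2 ∧ v.2 ≤ n := by
  rw [sd_le_iff]
  simp only [Prod.fst_zero, Prod.snd_zero]
  omega

theorem BLG_div (m v N : ℤ) (hm : 1 ≤ m) (hmN : m ≤ N) (h1 : -N ≤ v) (h2 : v ≤ N) :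
    ∃ z : ℤ, (2 * m * z - m ≤ v ∧ v ≤ 2 * m * z + m - 1) ∧ -N ≤ z ∧ z ≤ N := by
  refine ⟨(v + m) / (2 * m), ?_⟩
  have h3 := Int.emod_add_mul_ediv (v + m) (2 * m)
  have h4 := Int.emod_nonneg (v + m) (by omega : (2 * m : ℤ) ≠ 0)
  have h5 := Int.emod_lt_of_pos (v + m) (by omega : (0 : ℤ) < 2 * m)
  set z := (v + m) / (2 * m)
  have h6 : 2 * m * z ≤ v + m := by linarith
  have h7 : v + m < 2 * m * z + 2 * m := by linarith
  refine ⟨⟨by linarith, by linarith⟩, ?_, ?_⟩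
  · by_contra h8
    push Not at h8
    have h9 : z ≤ -N - 1 := by omega
    nlinarith
  · by_contra h8
    push Not at h8
    have h9 : N + 1 ≤ z := by omega
    nlinarith

theorem BLG : BLG_stmt := by
  intro m M N hm hmN hM
  refine ⟨?_, ?_, ?_, ?_, ?_⟩
  · intro z z' hz
    rw [Finset.disjoint_left]
    intro v h1 h2
    rw [BLG_mem] at h1 h2
    have hm' : (1 : ℤ) ≤ m := by exact_mod_cast hm
    apply hz
    have e1 := BLG_le m z.1 z'.1 v.1 hm' h1.1.1 h2.1.2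
    have e2 := BLG_le m z'.1 z.1 v.1 hm' h2.1.1 h1.1.2
    have e3 := BLG_le m z.2 z'.2 v.2 hm' h1.2.1 h2.2.2
    have e4 := BLG_le m z'.2 z.2 v.2 hm' h2.2.1 h1.2.2
    exact Prod.ext (le_antisymm e1 e2) (le_antisymm e3 e4)
  · intro v h1 h2
    have h3 := (BLG_zero v N).1 h2
    obtain ⟨z1, hz1, hz1'⟩ := BLG_div m v.1 N (by exact_mod_cast hm) (by exact_mod_cast hmN)
      h3.1.1 h3.1.2
    obtain ⟨z2, hz2, hz2'⟩ := BLG_div m v.2 N (by exact_mod_cast hm) (by exact_mod_cast hmN)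
      h3.2.1 h3.2.2
    have h4 : v ∈ blo m (z1, z2) := (BLG_mem m (z1, z2) v).2 ⟨hz1, hz2⟩
    refine ⟨(z1, z2), ?_, h4⟩
    simp only [bix, Finset.mem_filter, Finset.mem_product, Finset.mem_Icc]
    exact ⟨⟨hz1', hz2'⟩, v, h4, h1, h2⟩
  · intro z v hv
    exact BLG_box m z v hv
  · intro z hz
    simp only [bix, Finset.mem_filter] at hz
    obtain ⟨_, v, hv, h1, h2⟩ := hz
    have h3 := BLG_box m z v hv
    have h4 := sd_triangle 0 (2 * (m : ℤ) * z.1, 2 * (m : ℤ) * z.2) v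
    have h5 := sd_triangle 0 v (2 * (m : ℤ) * z.1, 2 * (m : ℤ) * z.2)
    rw [sd_comm v] at h5
    constructor
    · omega
    · omega
  · intro r hr
    set q : ℕ := (r - 1) / m with hq
    have hsub : ((bix m M N).filter fun z =>
        sd 0 (2 * (m : ℤ) * z.1, 2 * (m : ℤ) * z.2) < 2 * r) ⊆
        Finset.Icc (-(q : ℤ)) q ×ˢ Finset.Icc (-(q : ℤ)) q := by
      intro z hz
      have h1 := (Finset.mem_filter.1 hz).2
      have h2 : sd 0 (2 * (m : ℤ) * z.1, 2 * (m : ℤ) * z.2) ≤ 2 * r - 1 := by omega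
      rw [BLG_zero] at h2
      simp only at h2
      have key : ∀ x : ℤ, -((2 * r - 1 : ℕ) : ℤ) ≤ 2 * m * x → 2 * m * x ≤ ((2 * r - 1 : ℕ) : ℤ) →
          -(q : ℤ) ≤ x ∧ x ≤ q := by
        intro x hx1 hx2
        have h3 : ((2 * r - 1 : ℕ) : ℤ) = 2 * r - 1 := by omega
        rw [h3] at hx1 hx2
        have h4 : (m : ℤ) * x ≤ r - 1 := by
          have : 2 * ((m : ℤ) * x) ≤ 2 * r - 1 := by linarith
          omega
        have h5 : -((r : ℤ) - 1) ≤ m * x := by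
          have : -(2 * (r : ℤ) - 1) ≤ 2 * ((m : ℤ) * x) := by linarith
          omega
        have h6 : (r : ℤ) - 1 < m * (q + 1) := by
          have h7 := Nat.lt_mul_div_succ (r - 1) (by omega : 0 < m)
          rw [← hq] at h7
          have h8 : ((r - 1 : ℕ) : ℤ) < ((m * (q + 1) : ℕ) : ℤ) := by exact_mod_cast h7
          push_cast at h8
          omega
        have hm' : (0 : ℤ) < m := by exact_mod_cast hm
        constructor
        · by_contra h9
          push Not at h9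
          have : x ≤ -(q : ℤ) - 1 := by omega
          nlinarith
        · by_contra h9
          push Not at h9
          have : (q : ℤ) + 1 ≤ x := by omega
          nlinarith
      rw [Finset.mem_product, Finset.mem_Icc, Finset.mem_Icc]
      exact ⟨key z.1 h2.1.1 h2.1.2, key z.2 h2.2.1 h2.2.2⟩
    have h1 := Finset.card_le_card hsub
    rw [Finset.card_product, Int.card_Icc] at h1
    have h2 : ((q : ℤ) + 1 - -(q : ℤ)).toNat = 2 * q + 1 := by omega
    rw [h2] at h1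
    have hmr : (0 : ℝ) < m := by exact_mod_cast hm
    have h3 : (q : ℝ) ≤ r / m := by
      have h4 : q ≤ r / m := Nat.div_le_div_right (by omega)
      have h5 : ((r / m : ℕ) : ℝ) ≤ (r : ℝ) / m := Nat.cast_div_le
      exact le_trans (by exact_mod_cast h4) h5
    have h4 : (1 : ℝ) ≤ (r : ℝ) / m := by
      rw [le_div_iff₀ hmr, one_mul]
      exact_mod_cast hr
    have h5 : ((((bix m M N).filter fun z =>
        sd 0 (2 * (m : ℤ) * z.1, 2 * (m : ℤ) * z.2) < 2 * r).card : ℕ) : ℝ) ≤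
        (2 * (q : ℝ) + 1) * (2 * q + 1) := by
      exact_mod_cast h1
    refine h5.trans ?_
    have h6 : (0 : ℝ) ≤ q := Nat.cast_nonneg q
    nlinarith

end DP
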