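import Pool.Agent.helper95.DP.SpecH

/-!
# Compactness: an exceptional time exists (project dp)
-/

namespace DP

open MeasureTheory ProbabilityTheory Filter Topology

theorem HCP_two_congr {c c' : V → Bool} {m M : ℕ} (h : ∀ v ∈ box 0 M, c v = c' v)
    (h2 : two c 0 m M) : two c' 0 m M := by
  have h3 : ∀ v ∈ ann 0 m M, c v = c' v := fun v hv => h v hv.2
  obtain ⟨⟨u, hu, v, hv, h4⟩, u', hu', v', hv', h5⟩ := h2
  exact ⟨⟨u, hu, v, hv, (Conn.congr h3).1 h4⟩, u', hu', v', hv', (Conn.congr h3).1 h5⟩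

/-- The limiting argument. -/
theorem HCP_limit (hTW : HTW_stmt) (X : V → Path) (m : ℕ) (q : ℕ → ℝ)
    (hq : ∀ N, m < N → two (col (cfg X (q N))) 0 m N) (φ : ℕ → ℕ) (hφ : StrictMono φ)
    (b' : V → Bool) (l : Filter ℝ) (hl : ∀ v, ∀ᶠ s in l, cfg X s v = b' v)
    (hfr : ∀ p : ℝ → Prop, (∀ᶠ s in l, p s) → ∃ᶠ n in atTop, p (q (φ n))) :
    ∀ M, m < M → two (col b') 0 m M := by
  intro M hM
  have h1 : ∀ᶠ s in l, ∀ v ∈ box 0 M, cfg X s v = b' v := by
    have h2 := (Filter.eventually_all_finite (box_finite 0 M) (l := l)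
      (p := fun v s => cfg X s v = b' v)).2 fun v _ => hl v
    exact h2
  have h2 := hfr _ h1
  obtain ⟨n, hn1, hn2⟩ := (h2.and_eventually (eventually_ge_atTop M)).exists
  have h3 : M ≤ φ n := hn2.trans (hφ.id_le n)
  have h4 := hTW _ 0 m m M (φ n) le_rfl hM.le h3 (hq (φ n) (lt_of_lt_of_le hM h3))
  exact HCP_two_congr (fun v hv => col_congr (hn1 v hv)) h4

theorem HCP (hRC : HRC_stmt) (hTW : HTW_stmt) (hK1 : HK1_stmt) (hK2 : HK2_stmt) : HCP_stmt := by
  intro X hgood hns a b ha hab hX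
  obtain ⟨m, hm⟩ := hX
  have hex : ∀ N, ∃ q : ℝ, m < N → a ≤ q ∧ q ≤ b ∧ two (col (cfg X q)) 0 m N := by
    intro N
    by_cases hN : m < N
    · obtain ⟨q, h1, h2, h3⟩ := hm N hN
      exact ⟨q, fun _ => ⟨h1, h2, h3⟩⟩
    · exact ⟨a, fun h => absurd h hN⟩
  choose q hq using hex
  have hmem : ∃ᶠ n in atTop, q n ∈ Set.Icc a b := by
    refine Eventually.frequently ?_
    filter_upwards [eventually_gt_atTop m] with n hn
    exact ⟨(hq n hn).1, (hq n hn).2.1⟩
  obtain ⟨t, ht, φ, hφ, hlim⟩ := isCompact_Icc.tendsto_subseq' hmem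
  refine ⟨t, ht.1, ht.2, ?_⟩
  have hq2 : ∀ N, m < N → two (col (cfg X (q N))) 0 m N := fun N hN => (hq N hN).2.2
  have ht0 : 0 ≤ t := ha.trans ht.1
  by_cases hfr : ∃ᶠ n in atTop, t ≤ q (φ n)
  · refine hK1 _ m (HCP_limit hTW X m q hq2 φ hφ (cfg X t) (𝓝[≥] t) ?_ ?_)
    · intro v
      obtain ⟨δ, hδ, h1⟩ := (hRC _ (hgood v)).1 t ht0
      have h2 : ∀ᶠ s in 𝓝[≥] t, s < t + δ := nhdsWithin_le_nhds (Iio_mem_nhds (by linarith))
      filter_upwards [h2, self_mem_nhdsWithin] with s hs1 hs2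
      simp only [cfg, st, h1 s hs2 hs1]
    · intro p hp
      have h1 : ∀ᶠ s in 𝓝 t, t ≤ s → p s := by
        rw [eventually_nhdsWithin_iff] at hp
        exact hp
      have h2 := hlim.eventually h1
      exact (hfr.and_eventually h2).mono fun n hn => hn.2 hn.1
  · rw [Filter.not_frequently] at hfr
    have hlt : ∀ᶠ n in atTop, q (φ n) < t := hfr.mono fun n hn => not_le.1 hn
    have htpos : 0 < t := by
      obtain ⟨n, hn1, hn2⟩ := (hlt.and (eventually_gt_atTop m)).exists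
      have h3 : m < φ n := lt_of_lt_of_le hn2 (hφ.id_le n)
      have h4 := (hq (φ n) h3).1
      linarith
    have hleft : ∀ v, ∃ k : ℕ, (∀ᶠ s in 𝓝[<] t, cnt (X v).1 s = k) ∧
        ((∀ j, rt (X v).1 (j + 1) ≠ t) → k = cnt (X v).1 t) := by
      intro v
      obtain ⟨δ, hδ, k, h1, h2⟩ := (hRC _ (hgood v)).2 t htpos
      refine ⟨k, ?_, h2⟩
      have h3 : ∀ᶠ s in 𝓝[<] t, max 0 (t - δ) < s :=
        nhdsWithin_le_nhds (Ioi_mem_nhds (max_lt htpos (by linarith)))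
      filter_upwards [h3, self_mem_nhdsWithin] with s hs1 hs2
      exact h1 s ((le_max_left _ _).trans hs1.le) ((le_max_right _ _).trans_lt hs1) hs2
    choose k hk1 hk2 using hleft
    have hb := hK1 _ m (HCP_limit hTW X m q hq2 φ hφ (fun v => (X v).2 (k v)) (𝓝[<] t) (by
      intro v
      filter_upwards [hk1 v] with s hs
      simp only [cfg, st, hs]) (by
      intro p hp
      have h1 : ∀ᶠ s in 𝓝 t, s < t → p s := by
        rw [eventually_nhdsWithin_iff] at hp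
        exact hp
      have h2 := hlim.eventually h1
      exact ((hlt.and h2).mono fun n hn => hn.2 hn.1).frequently))
    -- at most one site rings at time `t`
    have hone : ∃ v₀ : V, ∀ v, v ≠ v₀ → ∀ j, rt (X v).1 (j + 1) ≠ t := by
      by_cases h : ∃ v₀ : V, ∃ j, rt (X v₀).1 (j + 1) = t
      · obtain ⟨v₀, j, hj⟩ := h
        refine ⟨v₀, fun v hv i hi => ?_⟩
        exact hns v v₀ hv i j (hi.trans hj.symm)
      · push Not at h
        exact ⟨0, fun v _ j => h v j⟩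
    obtain ⟨v₀, hv₀⟩ := hone
    have hc : ∀ v, v ≠ v₀ → col (cfg X t) v = col (fun v => (X v).2 (k v)) v := by
      intro v hv
      refine col_congr ?_
      simp only [cfg, st, hk2 v (hv₀ v hv)]
    exact ⟨hK2 _ _ true v₀ hc hb.1, hK2 _ _ false v₀ hc hb.2⟩

end DP
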