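import Pool.Agent.helper96.DP.API

/-!
# Mixing two configurations (project dp)

`Mx_mix X b b'` is `b` on `X` and `b'` outside `X`. Laws of mixtures of independent configurations,
measurability of local functions.
-/

namespace DP

open MeasureTheory

/-- `b` on `X`, `b'` outside. -/
def Mx_mix (X : Finset V) (b b' : V → Bool) : V → Bool := fun v => if v ∈ X then b v else b' v

/-- The fair coin. -/
noncomputable def Mx_U : Measure Bool := (PMF.uniformOfFintype Bool).toMeasure

instance : IsProbabilityMeasure Mx_U := by unfold Mx_U; infer_instance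

theorem Mx_P1 : P1 = Measure.infinitePi fun _ : V => Mx_U := rfl

instance : IsProbabilityMeasure P1 := by unfold P1; infer_instance

instance (ρ : V → ℝ) : IsProbabilityMeasure (PP ρ) := by unfold PP; infer_instance

/-- The law of a pair of independent configurations. -/
theorem Mx_zip : (P1.prod P1).map (fun p (v : V) => (p.1 v, p.2 v)) =
    Measure.infinitePi fun _ : V => Mx_U.prod Mx_U := by
  refine (Measure.isProjectiveLimit_infinitePi (fun _ : V => Mx_U.prod Mx_U)).unique ?_ |>.symm
  intro I
  have h1 := (measurePreserving_arrowProdEquivProdArrow Bool Bool I (fun _ => Mx_U)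
    (fun _ => Mx_U)).symm.map_eq
  refine Eq.trans ?_ h1
  have h2 : (Measure.pi fun _ : I => Mx_U) = P1.map I.restrict := by
    rw [Mx_P1, Measure.infinitePi_map_restrict]
  rw [Measure.map_map (by fun_prop) (by fun_prop), h2,
    Measure.map_prod_map _ _ (by fun_prop) (by fun_prop),
    Measure.map_map (by fun_prop) (by fun_prop)]
  rfl


theorem Mx_U_eq : Mx_U = (2⁻¹ : ENNReal) • (Measure.dirac true + Measure.dirac false) := by
  classical
  refine Measure.ext fun s hs => ?_
  unfold Mx_U
  rw [PMF.toMeasure_apply_fintype]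
  by_cases h1 : true ∈ s <;> by_cases h2 : false ∈ s <;>
    simp [Measure.dirac_apply' _ hs, h1, h2]

theorem Mx_UU_eq : Mx_U.prod Mx_U = ∑ a : Bool × Bool, (4⁻¹ : ENNReal) • Measure.dirac a := by
  rw [Mx_U_eq, Measure.prod_smul_left, Measure.prod_smul_right]
  simp only [Measure.prod_add, Measure.add_prod, Measure.dirac_prod_dirac]
  rw [Fintype.sum_prod_type, smul_smul]
  have h4 : (2⁻¹ : ENNReal) * 2⁻¹ = 4⁻¹ := by
    rw [← ENNReal.mul_inv (by simp) (by simp)]; norm_num
  rw [h4]
  simp only [Fintype.sum_bool, smul_add]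
  abel

theorem Mx_pairLaw_one : (Mx_U.prod Mx_U).map (fun a : Bool × Bool => (a.1, a.2)) = pairLaw 1 := by
  have h : (fun a : Bool × Bool => (a.1, a.2)) = id := rfl
  rw [h, Measure.map_id, Mx_UU_eq]
  unfold pairLaw
  refine Finset.sum_congr rfl fun a _ => ?_
  have h4 : wt 1 a = 1 / 4 := by simp [wt]
  rw [h4]
  have : ENNReal.ofReal (1 / 4) = 4⁻¹ := by
    rw [one_div, ENNReal.ofReal_inv_of_pos (by norm_num)]; norm_num
  rw [this]

theorem Mx_pairLaw_zero : (Mx_U.prod Mx_U).map (fun a : Bool × Bool => (a.1, a.1)) = pairLaw 0 := by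
  rw [Mx_UU_eq]
  unfold pairLaw
  have hm : Measurable fun a : Bool × Bool => (a.1, a.1) := measurable_of_finite _
  simp only [Fintype.sum_prod_type, Fintype.sum_bool, Measure.map_add _ _ hm, Measure.map_smul,
    Measure.map_dirac' hm]
  have e1 : wt 0 (true, true) = 1 / 2 := by simp [wt]
  have e2 : wt 0 (true, false) = 0 := by simp [wt]
  have e3 : wt 0 (false, true) = 0 := by simp [wt]
  have e4 : wt 0 (false, false) = 1 / 2 := by simp [wt]
  rw [e1, e2, e3, e4]
  have h2 : ENNReal.ofReal (1 / 2) = 4⁻¹ + 4⁻¹ := by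
    rw [← ENNReal.toReal_eq_toReal_iff' (by simp) (by simp), ENNReal.toReal_ofReal (by norm_num), ENNReal.toReal_add (by simp) (by simp)]
    norm_num
  rw [h2]
  simp [add_smul]

theorem Mx_measurable_mix (X : Finset V) :
    Measurable fun p : (V → Bool) × (V → Bool) => Mx_mix X p.1 p.2 := by
  unfold Mx_mix
  refine measurable_pi_lambda _ fun v => ?_
  split_ifs <;> fun_prop

/-- General form: the law of a sitewise function of two independent configurations. -/
theorem Mx_map_zip {β : Type} [MeasurableSpace β] (f : V → Bool × Bool → β) :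
    (P1.prod P1).map (fun p (v : V) => f v (p.1 v, p.2 v)) =
      Measure.infinitePi fun v : V => (Mx_U.prod Mx_U).map (f v) := by
  have hf : ∀ v, Measurable (f v) := fun v => measurable_of_finite _
  rw [← Measure.infinitePi_map_pi (μ := fun _ : V => Mx_U.prod Mx_U) hf, ← Mx_zip,
    Measure.map_map (by fun_prop) (by fun_prop)]
  rfl

theorem Mx_mp_mix (X : Finset V) :
    MeasurePreserving (fun p : (V → Bool) × (V → Bool) => Mx_mix X p.1 p.2) (P1.prod P1) P1 := by
  refine ⟨Mx_measurable_mix X, ?_⟩
  have h := Mx_map_zip (fun v a => if v ∈ X then a.1 else a.2)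
  have h2 : ∀ v : V, (Mx_U.prod Mx_U).map (fun a : Bool × Bool => if v ∈ X then a.1 else a.2) =
      Mx_U := by
    intro v
    by_cases hv : v ∈ X
    · simp only [hv, if_true]
      exact measurePreserving_fst.map_eq
    · simp only [hv, if_false]
      exact measurePreserving_snd.map_eq
  simp only [h2] at h
  exact h

/-- Noise on the set `B` only. -/
theorem Mx_mp_pair (B : Finset V) :
    MeasurePreserving (fun p : (V → Bool) × (V → Bool) => fun v => (p.1 v, Mx_mix B p.2 p.1 v))
      (P1.prod P1) (PP fun v => if v ∈ B then 1 else 0) := by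
  refine ⟨?_, ?_⟩
  · refine measurable_pi_lambda _ fun v => ?_
    unfold Mx_mix
    split_ifs <;> fun_prop
  have h := Mx_map_zip (fun v a => (a.1, if v ∈ B then a.2 else a.1))
  have h2 : ∀ v : V, (Mx_U.prod Mx_U).map (fun a : Bool × Bool => (a.1, if v ∈ B then a.2 else a.1)) =
      pairLaw (if v ∈ B then 1 else 0) := by
    intro v
    by_cases hv : v ∈ B
    · simp only [hv, if_true]
      exact Mx_pairLaw_one
    · simp only [hv, if_false]
      exact Mx_pairLaw_zero
  simp only [h2] at h
  exact h

/-- Local functions are measurable. -/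
theorem Mx_meas {β : Type*} [MeasurableSpace β] (h : (V → Bool) → β) (Λ : Finset V)
    (hd : ∀ b b' : V → Bool, (∀ v ∈ Λ, b v = b' v) → h b = h b') : Measurable h := by
  classical
  have h1 : h = (fun y : Λ → Bool => h fun v => if hv : v ∈ Λ then y ⟨v, hv⟩ else false) ∘
      Λ.restrict := by
    funext b
    exact hd _ _ fun v hv => by simp [hv]
  rw [h1]
  exact (measurable_of_finite _).comp (by fun_prop)

theorem Mx_meas_set (F : Set (V → Bool)) (Λ : Finset V) (hd : Dep F Λ) : MeasurableSet F := by
  have h1 := Mx_meas (fun b => b ∈ F) Λ fun b b' hb => propext (hd b b' hb)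
  exact measurableSet_setOfPred.2 h1

theorem Mx_int {α : Type*} [MeasurableSpace α] (μ : Measure α) [IsFiniteMeasure μ] (h : α → ℝ)
    (C : ℝ) (hm : Measurable h) (hb : ∀ x, |h x| ≤ C) : Integrable h μ :=
  Integrable.of_bound hm.aestronglyMeasurable C (Filter.Eventually.of_forall fun x => by
    rw [Real.norm_eq_abs]; exact hb x)

end DP
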