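import Pool.Agent.helper76.DP.Spec

set_option autoImplicit false

namespace Pool.Agent.DP

open Finset
open Pool.Agent.FR (mean Eig)
open Pool.Agent.AT (Qk Pair)
open Pool.Agent.HF (Om TC NoTC)
open Pool.Agent.IT (Ad)

theorem OMD_sum (Q : ℕ) [NeZero Q] (f : ℕ → ℝ) : ∑ k ∈ range Q, f k = ∑ κ : ZMod Q, f κ.val := by
  symm
  refine Finset.sum_bij (fun κ _ => κ.val) (fun κ _ => mem_range.mpr (ZMod.val_lt κ)) (fun κ _ κ' _ h => ZMod.val_injective Q h) ?_ (fun κ _ => rfl)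
  intro k hk
  exact ⟨(k : ZMod Q), mem_univ _, ZMod.val_cast_of_lt (mem_range.mp hk)⟩

theorem OMD_fac (a b p : ℕ) (hp : p.Prime) : (0 : ℝ) < (if p ∣ 2 * a * b then (p : ℝ) / (p - 1) else 1 - 1 / ((p : ℝ) - 1) ^ 2) := by
  have h2 : (2 : ℝ) ≤ p := by exact_mod_cast hp.two_le
  by_cases h : p ∣ 2 * a * b
  · rw [if_pos h]
    exact div_pos (by linarith) (by linarith)
  · rw [if_neg h]
    have h3 : 3 ≤ p := by
      rcases hp.two_le.lt_or_eq with h4 | h4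
      · exact h4
      · exact absurd (by rw [← h4, mul_assoc]; exact dvd_mul_right 2 _) h
    have h3' : (3 : ℝ) ≤ p := by exact_mod_cast h3
    have h5 : (1 : ℝ) < ((p : ℝ) - 1) ^ 2 := by nlinarith
    have h6 : 1 / ((p : ℝ) - 1) ^ 2 < 1 := by
      rw [div_lt_one (by linarith)]
      exact h5
    linarith

theorem OMD (hOMA : OMA_stmt) (hCRL : CRL_stmt) : OMD_stmt := by
  intro Q a b _ d ha hb hab hQ hd hper hLo
  have hQn : 0 < Q := Nat.pos_of_ne_zero (NeZero.ne Q)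
  have hQ0 : (0 : ℝ) < Q := by exact_mod_cast hQn
  have hab0 : 0 < 2 * a * b := by positivity
  have hdn : 0 < dn a b := by
    unfold dn
    have h1 : 0 < Nat.totient (2 * a * b) := Nat.totient_pos.mpr hab0
    have h2 : (0 : ℝ) < (Nat.totient (2 * a * b) : ℝ) := by exact_mod_cast h1
    have h3 : (0 : ℝ) < ((2 * a * b : ℕ) : ℝ) := by exact_mod_cast hab0
    exact div_pos h2 h3
  have hp : ∀ x : ℤ, d x = d (((x : ZMod Q).val : ℕ) : ℤ) := by
    intro x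
    have h1 : (((x : ZMod Q).val : ℕ) : ℤ) = x % (Q : ℤ) := ZMod.val_intCast x
    rw [h1]
    have h2 := hper (x % Q) (x / Q)
    rw [Int.emod_add_mul_ediv] at h2
    exact h2
  have hm : (mean fun p : (ZMod Q)ˣ × (ZMod Q)ˣ => om a b Q p.1 p.2 * d ((a : ℤ) * ((p.1 : ZMod Q).val : ℕ) - (b : ℤ) * ((p.2 : ZMod Q).val : ℕ))) =
      mean fun p : (ZMod Q)ˣ × (ZMod Q)ˣ => om a b Q p.1 p.2 * (fun κ : ZMod Q => d ((κ.val : ℕ) : ℤ)) ((a : ZMod Q) * p.1 - b * p.2) := by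
    congr 1
    funext p
    have e : (((a : ℤ) * ((p.1 : ZMod Q).val : ℕ) - (b : ℤ) * ((p.2 : ZMod Q).val : ℕ) : ℤ) : ZMod Q) = (a : ZMod Q) * p.1 - b * p.2 := by
      push_cast
      rw [ZMod.natCast_zmod_val, ZMod.natCast_zmod_val]
    rw [hp ((a : ℤ) * ((p.1 : ZMod Q).val : ℕ) - (b : ℤ) * ((p.2 : ZMod Q).val : ℕ)), e]
  rw [hm, hOMA Q a b (fun κ : ZMod Q => d ((κ.val : ℕ) : ℤ)) ha hb, mul_div_cancel₀ _ (by positivity)]
  rw [OMD_sum Q (fun k => d (k : ℤ))]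
  have hz : ∀ κ : ZMod Q, ¬ 0 < Nu Q a b κ → d ((κ.val : ℕ) : ℤ) = 0 := by
    intro κ hκ
    apply hLo
    rintro ⟨g1, g2⟩
    have h1 := hCRL Q a b ((κ.val : ℕ) : ℤ) ha hb hab (fun p hp _ hpab => g1 p hp hpab) (fun _ h => g2 h)
    have e : ((((κ.val : ℕ) : ℤ)) : ZMod Q) = κ := by
      push_cast
      exact ZMod.natCast_zmod_val κ
    rw [e] at h1
    have h2 : Nu Q a b κ = 0 := by omega
    rw [h2] at h1
    have h3 : 0 < (Nat.totient Q : ℝ) ^ 2 * ∏ p ∈ Q.primeFactors, (if p ∣ 2 * a * b then (p : ℝ) / (p - 1) else 1 - 1 / ((p : ℝ) - 1) ^ 2) := by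
      apply mul_pos
      · have h4 : 0 < Nat.totient Q := Nat.totient_pos.mpr hQn
        have h5 : (0 : ℝ) < (Nat.totient Q : ℝ) := by exact_mod_cast h4
        positivity
      · exact Finset.prod_pos fun p hpp => OMD_fac a b p (Nat.prime_of_mem_primeFactors hpp)
    simp only [Nat.cast_zero, mul_zero] at h1
    linarith
  have hs : ∑ κ : ZMod Q, d ((κ.val : ℕ) : ℤ) = ∑ κ with 0 < Nu Q a b κ, d ((κ.val : ℕ) : ℤ) := by
    rw [Finset.sum_filter]
    refine Finset.sum_congr rfl fun κ _ => ?_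
    by_cases h : 0 < Nu Q a b κ
    · rw [if_pos h]
    · rw [if_neg h, hz κ h]
  exact hs.le

end Pool.Agent.DP
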